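import Pool.Agent.H1.CA.TarP

/-!
# MP_ceca85_lc, module MC: homogeneity of the quotient forcing -/

set_option linter.unusedVariables false

open Ordinal Order Set
open scoped ZFSet

namespace CAA

open SF

namespace XMC

theorem mem_F {D : Dat} {G q : V} {k : Ordinal.{0}} :
    q ∈ D.F G k ↔ ZFSet.pair k.toZFSet q ∈ D.X G := by
  unfold Dat.F fib
  rw [ZFSet.mem_sep, mem_rg]
  exact ⟨fun h => h.2, fun h => ⟨⟨_, h⟩, h⟩⟩

theorem mem_a {D : Dat} {G z : V} {β : Ordinal.{0}} :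
    z ∈ D.a G β ↔ z ∈ D.X G ∧ IsPr z ∧ fst z ∈ D.A G β := by
  unfold Dat.a aS Dat.A
  rw [ZFSet.mem_sep]

theorem pair_mem_a {D : Dat} {G q : V} {k β : Ordinal.{0}} :
    ZFSet.pair k.toZFSet q ∈ D.a G β ↔ q ∈ D.F G k ∧ k.toZFSet ∈ D.A G β := by
  rw [mem_a, mem_F, fst_pair]
  exact ⟨fun h => ⟨h.1, h.2.2⟩, fun h => ⟨h.1, ⟨_, _, rfl⟩, h.2⟩⟩

theorem succ_lt {D : Dat} (hD : D.Ok) {β : Ordinal.{0}} (h : β < D.κ) : succ β < D.κ := by
  obtain ⟨ρ, h1, h2, -⟩ := hD.grd.unbκ β h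
  exact lt_of_le_of_lt (Order.succ_le_of_lt h1) h2

/-- the code of `G2` is in the model of `G1`, when the fibers differ at finitely many places only -/
theorem code_mem (hPG : T_PG) {D : Dat} (hD : D.Ok) {G1 G2 : V} (h1 : D.Gn G1) (h2 : D.Gn G2)
    {β : Ordinal.{0}} (hβ : β < D.κ) (hA : D.A G2 β = D.A G1 β)
    {F : Set Ordinal.{0}} (hF : F.Finite) (hFk : ∀ k ∈ F, k < D.κ)
    (hFA : ∀ k ∈ F, k.toZFSet ∈ D.A G1 β)
    (hout : ∀ j < D.κ, j ∉ F → D.F G2 j = D.F G1 j)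
    (hz : ZFm (· ∈ D.B G1 β)) (ha : D.a G1 β ∈ D.B G1 β)
    (hin : ∀ k ∈ F, D.F G2 k ∈ D.B G1 β)
    (hord : ∀ k < D.κ, k.toZFSet ∈ D.B G1 β) : D.a G2 β ∈ D.B G1 β := by
  have key : ∀ F' : Set Ordinal.{0}, F'.Finite → F' ⊆ F →
      ∃ T ∈ D.B G1 β, ∀ z, z ∈ T ↔ ((∃ k < D.κ, k ∉ F' ∧ k.toZFSet ∈ D.A G1 β ∧
          ∃ q ∈ D.F G1 k, z = ZFSet.pair k.toZFSet q) ∨
        ∃ k ∈ F', ∃ q ∈ D.F G2 k, z = ZFSet.pair k.toZFSet q) := by
    intro F' hF'
    induction F', hF' using Set.Finite.induction_on with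
    | empty =>
      intro _
      refine ⟨D.a G1 β, ha, fun z => ?_⟩
      constructor
      · intro hz1
        have hz2 := mem_a.1 hz1
        obtain ⟨k, hk, q, hq, rfl⟩ := ((hPG D hD G1 h1).2.2.1 z).1 hz2.1
        refine Or.inl ⟨k, hk, fun h => h, ?_, q, hq, rfl⟩
        have h3 := hz2.2.2
        rwa [fst_pair] at h3
      · rintro (⟨k, hk, -, hkA, q, hq, rfl⟩ | ⟨k, hk, -⟩)
        · exact pair_mem_a.2 ⟨hq, hkA⟩
        · exact absurd hk (fun h => h)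
    | @insert k F' hk hfin ih =>
      intro hsub
      obtain ⟨T, hT, hTz⟩ := ih (fun x hx => hsub (Set.mem_insert_of_mem _ hx))
      have hkF : k ∈ F := hsub (Set.mem_insert _ _)
      have hkκ : k < D.κ := hFk k hkF
      have t1 : Tm ZFm (fun _ v => (v 0).sep fun z => ¬ fst z = v 1) :=
        (Tm.sep (R := fun _ v => ¬ fst (v 0) = v 2)
          (Dfb.eq (Tm.fst (Tm.var 0)) (Tm.var 2)).not (Tm.var 0)).congr fun M k v hv => rfl
      have t2 : Tm ZFm (fun _ v => ((v 0).sep fun z => ¬ fst z = v 1) ∪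
          ZFSet.prod {v 1} (v 2)) := Tm.union t1 (Tm.prod (Tm.sing (Tm.var 1)) (Tm.var 2))
      have h3 := t2.1 (· ∈ D.B G1 β) hz (cons T (cons k.toZFSet fun _ => D.F G2 k)) (by
        intro j
        match j with
        | 0 => exact hT
        | 1 => exact hord k hkκ
        | j + 2 => exact hin k hkF)
      refine ⟨_, h3, fun z => ?_⟩
      show z ∈ ((T.sep fun z => ¬ fst z = k.toZFSet) ∪
        ZFSet.prod {k.toZFSet} (D.F G2 k)) ↔ _
      rw [ZFSet.mem_union, ZFSet.mem_sep, hTz]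
      constructor
      · rintro (⟨h4, h5⟩ | h4)
        · rcases h4 with ⟨j, hj, hjF, hjA, q, hq, rfl⟩ | ⟨j, hj, q, hq, rfl⟩
          · rw [fst_pair] at h5
            refine Or.inl ⟨j, hj, ?_, hjA, q, hq, rfl⟩
            intro h6
            rcases h6 with h6 | h6
            · exact h5 (by rw [h6])
            · exact hjF h6
          · exact Or.inr ⟨j, Set.mem_insert_of_mem _ hj, q, hq, rfl⟩
        · obtain ⟨a, h5, q, hq, rfl⟩ := ZFSet.mem_prod.1 h4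
          rw [ZFSet.mem_singleton] at h5
          subst h5
          exact Or.inr ⟨k, Set.mem_insert _ _, q, hq, rfl⟩
      · rintro (⟨j, hj, hjF, hjA, q, hq, rfl⟩ | ⟨j, hj, q, hq, rfl⟩)
        · refine Or.inl ⟨Or.inl ⟨j, hj, fun h => hjF (Set.mem_insert_of_mem _ h), hjA, q, hq, rfl⟩,
            ?_⟩
          rw [fst_pair]
          intro h6
          exact hjF (Or.inl (Ordinal.toZFSet_injective h6))
        · by_cases hjk : j = k
          · subst hjk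
            exact Or.inr (ZFSet.mem_prod.2 ⟨_, ZFSet.mem_singleton.2 rfl, q, hq, rfl⟩)
          · rcases hj with hj | hj
            · exact absurd hj hjk
            · refine Or.inl ⟨Or.inr ⟨j, hj, q, hq, rfl⟩, ?_⟩
              rw [fst_pair]
              intro h6
              exact hjk (Ordinal.toZFSet_injective h6)
  obtain ⟨T, hT, hTz⟩ := key F hF (fun x hx => hx)
  have e : D.a G2 β = T := by
    ext z
    rw [hTz]
    constructor
    · intro hz1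
      have hz2 := mem_a.1 hz1
      obtain ⟨k, hk, q, hq, rfl⟩ := ((hPG D hD G2 h2).2.2.1 z).1 hz2.1
      have h3 := hz2.2.2
      rw [fst_pair, hA] at h3
      by_cases hkF : k ∈ F
      · exact Or.inr ⟨k, hkF, q, hq, rfl⟩
      · refine Or.inl ⟨k, hk, hkF, h3, q, ?_, rfl⟩
        rwa [hout k hk hkF] at hq
    · rintro (⟨k, hk, hkF, hkA, q, hq, rfl⟩ | ⟨k, hk, q, hq, rfl⟩)
      · refine pair_mem_a.2 ⟨?_, by rwa [hA]⟩
        rwa [hout k hk hkF]
      · exact pair_mem_a.2 ⟨hq, by rw [hA]; exact hFA k hk⟩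
  rw [e]
  exact hT

/-- the fibers at the active places are in the model -/
theorem fiber_mem (hPC : T_PC) {D : Dat} {G : V} {β k : Ordinal.{0}}
    (hz : ZFm (· ∈ D.B G β)) (ha : D.a G β ∈ D.B G β) (hk : k.toZFSet ∈ D.B G β)
    (hkA : k.toZFSet ∈ D.A G β) : D.F G k ∈ D.B G β := by
  have h1 := (hPC.2.2.2.2.2.1).1 (· ∈ D.B G β) hz (cons (D.a G β) fun _ => k.toZFSet) (by
    intro j
    cases j with
    | zero => exact ha
    | succ j => exact hk)
  have e : D.F G k = fib (D.a G β) k.toZFSet := by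
    ext q
    unfold fib
    rw [ZFSet.mem_sep, mem_rg, pair_mem_a]
    constructor
    · intro h
      exact ⟨⟨k.toZFSet, pair_mem_a.2 ⟨h, hkA⟩⟩, h, hkA⟩
    · intro h
      exact h.2.1
  rw [e]
  exact h1

end XMC

open XMC

theorem pf_MC (hPB : T_PB) (hPC : T_PC) (hPF : T_PF) (hPG : T_PG) (hPN : T_PN) (hCC : T_CC)
    (hCF : T_CF) (hMA : T_MA) (hMB : T_MB) (hDT : T_DT) : T_MC := by
  intro D hD G hG β hβ R hR u hu v hv
  have hβ' := succ_lt hD hβ
  have cf := fun G (hG : D.Gn G) => (hCF D hD G hG).1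
  have hgrd := hD.grd
  have hordM : ∀ k < D.κ, D.M k.toZFSet := fun k hk =>
    (hgrd.ord k).2 (hk.trans (hgrd.κχ.trans hgrd.χθ))
  obtain ⟨hS1, hS2, hS3, hS4⟩ := hMB D hD G hG β hβ
  obtain ⟨hA1, hA2, hA3, hA4, hA5⟩ := hMA D hD G hG (succ β) hβ' (D.S G β) hS1 hS2 hS3
  obtain ⟨c1, c2, c3, c4, -⟩ := cf G hG (succ β) hβ'
  refine hDT (· ∈ D.B G (succ β)) (· ∈ D.B G β) (D.qc G (D.S G β)) (D.qr G (D.S G β))
    c1.toZFm c3 hA1 hA2 hA3 ?_ R hR u v hu hv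
  intro q hq
  have hq0 := hq
  unfold Dat.qc Qs at hq0
  rw [mem_imS] at hq0
  obtain ⟨p, hp, rfl⟩ := hq0
  have hpc : p ∈ D.c := by
    have h := hp
    unfold Dat.H Hs at h
    exact (ZFSet.mem_sep.1 h).1
  have hsvl : Svl p := ((hPF D hD).2.2.2.2.1 p hpc).1
  set F : Set Ordinal.{0} := {k | k < D.κ ∧ k.toZFSet ∈ D.S G β ∧ app p k.toZFSet ∉ D.F G k}
    with hFdef
  have hFfin : F.Finite :=
    (((hPG D hD G hG).2.2.2.2.1 p hpc).1 hp).subset fun k hk => ⟨hk.1, hk.2.2⟩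
  obtain ⟨G2, g1, g2, g3, g4, g5, g6⟩ := hPN D hD G hG F hFfin (fun k hk => hk.1) p hpc
  -- the codes for `succ β`
  have hc1 := hCC D hD G G2 hG g1 g5 (succ β) hβ' (by
    intro j hj hjA _
    refine g2 j hj fun hjF => ?_
    exact hS3 _ hjF.2.1 hjA)
  have hA' : D.A G2 (succ β) = D.A G (succ β) := hc1.1
  have ha' : D.a G2 (succ β) = D.a G (succ β) := hc1.2 (by
    intro j hj hjA
    refine g2 j hj fun hjF => ?_
    exact hS3 _ hjF.2.1 hjA)
  have hB' : D.B G2 (succ β) = D.B G (succ β) := by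
    unfold Dat.B
    rw [ha']
  -- the active set for `β`
  have hc2 := hCC D hD G G2 hG g1 g5 β hβ (by
    intro j hj hjA hjt
    refine g2 j hj fun hjF => ?_
    have h := hjF.2.1
    unfold Dat.S at h
    rw [(ZFSet.mem_sep.1 h).2] at hjt
    exact ZFSet.mem_irrefl _ hjt)
  have hAβ : D.A G2 β = D.A G β := hc2.1
  have hS' : D.S G2 β = D.S G β := by
    unfold Dat.S
    rw [hAβ]
  have hqc : ∀ S, D.qc G2 S = D.qc G S := fun S => by
    unfold Dat.qc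
    rw [g5]
  have hqr : ∀ S, D.qr G2 S = D.qr G S := fun S => by
    unfold Dat.qr
    rw [g5]
  obtain ⟨b1, b2, b3, b4, b5⟩ := hMA D hD G2 g1 (succ β) hβ' (D.S G β)
    (by rw [hB']; exact hS1) hS2 (by rw [hA']; exact hS3)
  rw [hqc, hqr, hB'] at b4
  rw [hqc] at b5
  have hFA : ∀ k ∈ F, k.toZFSet ∈ D.A G β := fun k hk => by
    have h := hk.2.1
    unfold Dat.S at h
    exact (ZFSet.mem_sep.1 h).1
  obtain ⟨d1, d2, d3, d4, d5, d6, d7, -⟩ := cf G hG β hβ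
  obtain ⟨e1, e2, e3, e4, e5, e6, e7, -⟩ := cf G2 g1 β hβ
  have hordB : ∀ k < D.κ, k.toZFSet ∈ D.B G β := fun k hk => d4 _ (hordM k hk)
  have hordB2 : ∀ k < D.κ, k.toZFSet ∈ D.B G2 β := fun k hk => e4 _ (hordM k hk)
  have m1 : D.a G2 β ∈ D.B G β := by
    refine code_mem hPG hD hG g1 hβ hAβ hFfin (fun k hk => hk.1) hFA g2 d1.toZFm d2 ?_ hordB
    intro k hk
    exact (g6 (· ∈ D.B G β) d1.toZFm d4 k hk).1
      (fiber_mem hPC d1.toZFm d2 (hordB k hk.1) (hFA k hk))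
  have m2 : D.a G β ∈ D.B G2 β := by
    refine code_mem hPG hD g1 hG hβ hAβ.symm hFfin (fun k hk => hk.1)
      (fun k hk => by rw [hAβ]; exact hFA k hk) (fun j hj hjF => (g2 j hj hjF).symm)
      e1.toZFm e2 ?_ hordB2
    intro k hk
    exact (g6 (· ∈ D.B G2 β) e1.toZFm e4 k hk).2
      (fiber_mem hPC e1.toZFm e2 (hordB2 k hk.1) (by rw [hAβ]; exact hFA k hk))
  have hBB : D.B G2 β = D.B G β := by
    ext x
    exact ⟨e7 (· ∈ D.B G β) d1.toZFm d4 m1 x, d7 (· ∈ D.B G2 β) e1.toZFm e4 m2 x⟩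
  refine ⟨Qs (D.S G β) G2, b4, ?_, ?_⟩
  · rw [b5]
    refine ZFSet.mem_sep.2 ⟨hq, ?_⟩
    intro k hk
    obtain ⟨α, hα, rfl⟩ := Ordinal.mem_toZFSet_iff.1 (hS2 hk)
    rw [((hPB.1 p (D.S G β) hsvl).2 _).1 hk]
    refine mem_F.1 ?_
    by_cases hF : α ∈ F
    · exact g3 α hF
    · rw [g2 α hα hF]
      by_contra hno
      exact hF ⟨hα, hk, hno⟩
  · intro y
    have h := (hMB D hD G2 g1 β hβ).2.2.2 y
    rw [hBB, hB', hS'] at h
    exact h

end CAA
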