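import Pool.Agent.H94.CA.PI

/-!
# MP_ceca85_lc, module PH: reduction of dense sets -/

set_option linter.unusedVariables false

open Ordinal Order Set
open scoped ZFSet

namespace CAA

open SF XPI

namespace XPH

/-- `u` and `v` agree below `i` -/
def Ag (i u v : V) : Prop := ∀ k ∈ i, app u k = app v k

theorem dfb_ag {f g h : (V → Prop) → (ℕ → V) → V} (hf : Tm ZFm f) (hg : Tm ZFm g)
    (hh : Tm ZFm h) : Dfb ZFm (fun M v => Ag (f M v) (g M v) (h M v)) := by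
  refine Dfb.at3 (P := fun _ x y z => Ag x y z) ?_ hf hg hh
  exact (Dfb.ball (R := fun _ v => app (v 2) (v 0) = app (v 3) (v 0)) ktr_zfm (Tm.var 0)
    (Dfb.eq (Tm.app (Tm.var 2) (Tm.var 0)) (Tm.app (Tm.var 3) (Tm.var 0)))).congr
    fun M k v hv => Iff.rfl

theorem ag_iff {i : Ordinal.{0}} {u v : V} :
    Ag i.toZFSet u v ↔ ∀ k < i, app u k.toZFSet = app v k.toZFSet := by
  constructor
  · intro h k hk
    exact h _ (Ordinal.mem_toZFSet_iff.2 ⟨k, hk, rfl⟩)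
  · intro h k hk
    obtain ⟨α, hα, rfl⟩ := Ordinal.mem_toZFSet_iff.1 hk
    exact h α hα

/-- the one step relation: `w` is a response to the position `v`, for the pair `x = (j, u)` -/
def Rs (c r p0 W i v x w : V) : Prop := ZFSet.pair w v ∈ r ∧ Ag i w v ∧
  (ZFSet.pair v p0 ∈ r ∧ Bl i (snd x) p0 → ∃ u' ∈ c, Do u' i ∧ ZFSet.pair u' (snd x) ∈ r ∧
    cat i u' w ∈ app W (fst x))

/-- the set of the triples `((v, m), w)` with `Rs` for `e(m)` -/
noncomputable def RR (c r p0 W i e ρ : V) : V :=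
  (ZFSet.prod (ZFSet.prod c ρ) c).sep fun z =>
    Rs c r p0 W i (fst (fst z)) (app e (snd (fst z))) (snd z)

theorem tm_RR (hPC : T_PC) :
    Tm ZFm (fun _ v => RR (v 0) (v 1) (v 2) (v 3) (v 4) (v 5) (v 6)) := by
  refine (Tm.sep (f := fun _ v => ZFSet.prod (ZFSet.prod (v 0) (v 6)) (v 0))
    (R := fun _ v => Rs (v 1) (v 2) (v 3) (v 4) (v 5) (fst (fst (v 0)))
      (app (v 6) (snd (fst (v 0)))) (snd (v 0))) ?_
      (Tm.prod (Tm.prod (Tm.var 0) (Tm.var 6)) (Tm.var 0))).congr fun M k v hv => rfl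
  have tv : Tm ZFm (fun _ v => fst (fst (v 0))) := Tm.fst (Tm.fst (Tm.var 0))
  have tx : Tm ZFm (fun _ v => app (v 6) (snd (fst (v 0)))) :=
    Tm.app (Tm.var 6) (Tm.snd (Tm.fst (Tm.var 0)))
  have tw : Tm ZFm (fun _ v => snd (v 0)) := Tm.snd (Tm.var 0)
  refine (Dfb.pairMem tw tv (Tm.var 2)).and ((dfb_ag (Tm.var 5) tw tv).and
    (((Dfb.pairMem tv (Tm.var 3) (Tm.var 2)).and
      (dfb_bl hPC (Tm.var 5) (Tm.snd tx) (Tm.var 3))).imp ?_))
  have tx' : Tm ZFm (fun _ v => app (v 7) (snd (fst (v 1)))) :=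
    Tm.app (Tm.var 7) (Tm.snd (Tm.fst (Tm.var 1)))
  refine (Dfb.bex (R := fun _ v => Do (v 0) (v 6) ∧
    ZFSet.pair (v 0) (snd (app (v 7) (snd (fst (v 1))))) ∈ v 3 ∧
    cat (v 6) (v 0) (snd (v 1)) ∈ app (v 5) (fst (app (v 7) (snd (fst (v 1)))))) ktr_zfm
      (Tm.var 1) ?_).congr fun M k v hv => Iff.rfl
  exact (dfb_do (Tm.var 0) (Tm.var 6)).and ((Dfb.pairMem (Tm.var 0) (Tm.snd tx') (Tm.var 3)).and
    (Dfb.mem (tm_cat hPC (Tm.var 6) (Tm.var 0) (Tm.snd (Tm.var 1)))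
      (Tm.app (Tm.var 5) (Tm.fst tx'))))

theorem cat_rst (i w v : V) : cat i (rst i w) (cat i v w) = w := by
  ext z
  unfold cat rst
  simp only [ZFSet.mem_union, ZFSet.mem_sep]
  by_cases hz : fst z ∈ i
  · simp only [hz]; tauto
  · simp only [hz]; tauto

end XPH

open XPH

theorem pf_PH (hPB : T_PB) (hPC : T_PC) (hPE : T_PE) (hPF : T_PF) (hPS : T_PS) (hDF : T_DF)
    (hDI : T_DI) (hGH : T_GH) : T_PH := by
  intro D hD i hi p0 hp0 J W hJ hsm hW hden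
  have hzc : ZFCm D.M := hD.grd.zfc
  have hz : ZFm D.M := hzc.toZFm
  obtain ⟨po, hcM, hrM, hemp, hcd, hrst, hcat, -, hle, -, -, hlow⟩ := hPF D hD
  have hiθ : ∀ k < D.κ, D.M k.toZFSet := fun k hk =>
    (hD.grd.ord k).2 (hk.trans (hD.grd.κχ.trans hD.grd.χθ))
  have hiM := hiθ i hi
  have mle : ∀ {p q : V}, ZFSet.pair p q ∈ D.r → p ∈ D.c ∧ q ∈ D.c ∧ D.Le p q :=
    fun {p q} h => (hle p q).1 h
  have p0M : D.M p0 := (hcd p0 hp0).2.1
  have hLr : D.Le p0 p0 := fun k hk => ee_refl _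
  by_cases hJe : J = ∅
  · subst hJe
    exact ⟨p0, hp0, hLr, fun k hk => rfl, fun j hj => absurd hj (ZFSet.notMem_empty j)⟩
  obtain ⟨hGd, hCM, -, -, -⟩ := (hGH D hD).1 i hi
  obtain ⟨-, df2, df3, df4, -, -, -, -, -, -⟩ := hDF D.M hz _ hCM hGd
  -- the conditions with domain in `i`
  set P : V := D.c.sep fun u => Do u i.toZFSet with hPdef
  have hPM : D.M P := by
    have t : Tm ZFm (fun _ v => (v 0).sep fun u => Do u (v 1)) :=
      (Tm.sep (R := fun _ v => Do (v 0) (v 2)) (dfb_do (Tm.var 0) (Tm.var 2)) (Tm.var 0)).congr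
        fun M k v hv => rfl
    exact t.1 D.M hz (cons D.c fun _ => i.toZFSet) (by
      intro n
      cases n with
      | zero => exact hcM
      | succ n => exact hiM)
  have hPc : ∀ u, u ∈ P ↔ u ∈ D.c ∧ Do u i.toZFSet := fun u => ZFSet.mem_sep
  have hPC' : P ⊆ LA ∅ (D.γ i) := by
    intro u hu
    exact hlow i hi u ((hPc u).1 hu).1 ((hPc u).1 hu).2
  have hsP : Sm D.M (LA ∅ (D.γ i)) P := df2 P hPM hPC'
  have hsJP := df4 J P hsm hsP
  have hemP : ∅ ∈ P := (hPc ∅).2 ⟨hemp, fun z hz => absurd hz (ZFSet.notMem_empty z)⟩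
  -- an ordinal of the size of `C`
  obtain ⟨ρ, f, g, hfM, hgM, hf, hg⟩ := hDI D.M hzc (LA ∅ (D.γ i)) hCM ⟨_, hGd.om⟩
  have hρ : ρ < D.μ i := by
    by_contra hno
    push Not at hno
    refine hD.sz.ns i hi (df3 _ ρ.toZFSet (hiθ _ (hD.sz.μκ i hi)) (Or.inr ⟨g, hgM, hg⟩) ?_)
    intro x hx
    obtain ⟨α, hα, rfl⟩ := Ordinal.mem_toZFSet_iff.1 hx
    exact Ordinal.mem_toZFSet_iff.2 ⟨α, lt_of_lt_of_le hα hno, rfl⟩
  have hρM : D.M ρ.toZFSet := hiθ ρ (hρ.trans (hD.sz.μκ i hi))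
  -- an enumeration of `J × P` in type `ρ`
  obtain ⟨e, heM, hef, heo⟩ : ∃ e, D.M e ∧ (∀ m < ρ, app e m.toZFSet ∈ ZFSet.prod J P) ∧
      ∀ x ∈ ZFSet.prod J P, ∃ m < ρ, app e m.toZFSet = x := by
    rcases hsJP with h0 | ⟨f', hf'M, hf'⟩
    · exfalso
      obtain ⟨j, hj⟩ : ∃ j, j ∈ J := by
        by_contra hno
        exact hJe ((ZFSet.eq_empty J).2 fun x hx => hno ⟨x, hx⟩)
      have h1 : ZFSet.pair j ∅ ∈ ZFSet.prod J P := ZFSet.pair_mem_prod.2 ⟨hj, hemP⟩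
      rw [h0] at h1
      exact ZFSet.notMem_empty _ h1
    · have t : Tm ZFm (fun _ v => resS (v 0) fun x => app (v 2) (app (v 1) x)) :=
        (Tm.resS (f := fun _ v => v 0) (g := fun _ v => app (v 3) (app (v 2) (v 0))) (Tm.var 0)
          (Tm.app (Tm.var 3) (Tm.app (Tm.var 2) (Tm.var 0)))).congr fun M k v hv => rfl
      have hm : ∀ m < ρ, m.toZFSet ∈ ρ.toZFSet := fun m hm =>
        Ordinal.mem_toZFSet_iff.2 ⟨m, hm, rfl⟩
      refine ⟨resS ρ.toZFSet fun x => app f' (app f x), ?_, ?_, ?_⟩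
      · exact t.1 D.M hz (cons ρ.toZFSet (cons f fun _ => f')) (by
          intro n
          match n with
          | 0 => exact hρM
          | 1 => exact hfM
          | n + 2 => exact hf'M)
      · intro m hm'
        rw [app_resS (hm m hm')]
        exact app_mem hf'.1 (app_mem hf.1 (hm m hm'))
      · intro x hx
        obtain ⟨a, ha, hax⟩ := hf'.2 x hx
        obtain ⟨b, hb, hba⟩ := hf.2 a ha
        obtain ⟨m, hm', rfl⟩ := Ordinal.mem_toZFSet_iff.1 hb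
        refine ⟨m, hm', ?_⟩
        rw [app_resS (hm m hm'), app_eq (svl_of_isFunc hf.1) hba,
          app_eq (svl_of_isFunc hf'.1) hax]
  have hRM : D.M (RR D.c D.r p0 W i.toZFSet e ρ.toZFSet) :=
    (tm_RR hPC).1 D.M hz (cons D.c (cons D.r (cons p0 (cons W (cons i.toZFSet
      (cons e fun _ => ρ.toZFSet)))))) (by
      intro n
      match n with
      | 0 => exact hcM
      | 1 => exact hrM
      | 2 => exact p0M
      | 3 => exact hW
      | 4 => exact hiM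
      | 5 => exact heM
      | n + 6 => exact hρM)
  have hprM : D.M (ZFSet.prod D.c ρ.toZFSet) := by
    exact (Tm.prod (Tm.var 0) (Tm.var 1)).1 D.M hz (cons D.c fun _ => ρ.toZFSet) (by
      intro n
      cases n with
      | zero => exact hcM
      | succ n => exact hρM)
  -- existence of responses
  have hstep : ∀ v ∈ D.c, ∀ m < ρ, ∃ w ∈ D.c,
      Rs D.c D.r p0 W i.toZFSet v (app e m.toZFSet) w := by
    intro v hv m hm
    obtain ⟨j, hj, u, hu, hju⟩ := ZFSet.mem_prod.1 (hef m hm)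
    have huc := ((hPc u).1 hu).1
    have hui := ((hPc u).1 hu).2
    rw [hju]
    by_cases hyp : ZFSet.pair v p0 ∈ D.r ∧ Bl i.toZFSet u p0
    · obtain ⟨y1, y2⟩ := hyp
      have hvp := (mle y1).2.2
      have hvs := (hcd v hv).1
      have hus := (hcd u huc).1
      have huv : cat i.toZFSet u v ∈ D.c := hcat u huc v hv _ hiM
      have auv := (hPB.2.1 u i.toZFSet v hus hvs).2
      obtain ⟨d1, d2, d3⟩ := hden j hj
      obtain ⟨w0, hw0, hw0l⟩ := d3 _ huv (by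
        intro k hk
        by_cases hki : k.toZFSet ∈ i.toZFSet
        · rw [(auv _).1 hki]
          exact y2 _ hki
        · rw [(auv _).2 hki]
          exact hvp k hk)
      have hw0c := d1 hw0
      have hw0s := (hcd w0 hw0c).1
      have hw : cat i.toZFSet v w0 ∈ D.c := hcat v hv w0 hw0c _ hiM
      have avw := (hPB.2.1 v i.toZFSet w0 hvs hw0s).2
      have hr0 := (hPB.1 w0 i.toZFSet hw0s).2
      refine ⟨cat i.toZFSet v w0, hw, (hle _ _).2 ⟨hw, hv, ?_⟩, ?_, ?_⟩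
      · intro k hk
        by_cases hki : k.toZFSet ∈ i.toZFSet
        · rw [(avw _).1 hki]
          exact ee_refl _
        · rw [(avw _).2 hki]
          have h5 := hw0l k hk
          rwa [(auv _).2 hki] at h5
      · intro k hk
        rw [(avw _).1 hk]
      · intro _
        refine ⟨rst i.toZFSet w0, hrst w0 hw0c _ hiM, ?_, ?_, ?_⟩
        · intro z hz
          unfold rst at hz
          exact (ZFSet.mem_sep.1 hz).2
        · rw [snd_pair]
          refine (hle _ _).2 ⟨hrst w0 hw0c _ hiM, huc, ?_⟩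
          intro k hk
          by_cases hki : k.toZFSet ∈ i.toZFSet
          · rw [(hr0 _).1 hki]
            have h5 := hw0l k hk
            rwa [(auv _).1 hki] at h5
          · rw [(hr0 _).2 hki]
            have h0 : app u k.toZFSet = ∅ := by
              refine hPB.2.2.2 u _ fun h => hki ?_
              obtain ⟨y, hy⟩ := mem_dm.1 h
              have h3 := hui _ hy
              rwa [fst_pair] at h3
            rw [h0]
            exact ee_refl _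
        · rw [fst_pair, cat_rst]
          exact hw0
    · refine ⟨v, hv, (hle _ _).2 ⟨hv, hv, fun k hk => ee_refl _⟩, fun k hk => rfl, ?_⟩
      rw [snd_pair]
      intro h
      exact absurd h hyp
  obtain ⟨Ψ, hΨM, hΨf, hΨ⟩ := hPE D.M hzc (ZFSet.prod D.c ρ.toZFSet) D.c _ hprM hcM hRM (by
    intro x hx
    obtain ⟨v, hv, y, hy, rfl⟩ := ZFSet.mem_prod.1 hx
    obtain ⟨m, hm, rfl⟩ := Ordinal.mem_toZFSet_iff.1 hy
    obtain ⟨w, hw, hR⟩ := hstep v hv m hm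
    refine ⟨w, hw, ?_⟩
    unfold RR
    rw [ZFSet.mem_sep]
    refine ⟨ZFSet.pair_mem_prod.2 ⟨hx, hw⟩, ?_⟩
    simp only [fst_pair, snd_pair]
    exact hR)
  have hΨ' : ∀ v ∈ D.c, ∀ m < ρ, Rs D.c D.r p0 W i.toZFSet v (app e m.toZFSet)
      (app Ψ (ZFSet.pair v m.toZFSet)) := by
    intro v hv m hm
    have h6 := hΨ (ZFSet.pair v m.toZFSet)
      (ZFSet.pair_mem_prod.2 ⟨hv, Ordinal.mem_toZFSet_iff.2 ⟨m, hm, rfl⟩⟩)
    unfold RR at h6
    rw [ZFSet.mem_sep] at h6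
    have h7 := h6.2
    simp only [fst_pair, snd_pair] at h7
    exact h7
  obtain ⟨s, s1, s2, s3, s4, s5⟩ := hPS D hD i hi ρ hρ p0 hp0 Ψ hΨM hΨf (by
    intro v hv m hm
    obtain ⟨h8, h9, -⟩ := hΨ' v hv m hm
    exact ⟨(mle h8).2.2, ag_iff.1 h9⟩)
  have hsp : ∀ m ≤ ρ, D.Le (s m) p0 := by
    intro m hm
    rcases eq_or_ne m 0 with rfl | h0
    · rw [s2]
      exact hLr
    · have h := s3 m hm 0 (pos_iff_ne_zero.2 h0)
      rwa [s2] at h
  refine ⟨s ρ, s1 ρ le_rfl, hsp ρ le_rfl, s4 ρ le_rfl, ?_⟩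
  intro j hj u hu hui hup
  obtain ⟨m, hm, hem⟩ := heo (ZFSet.pair j u) (ZFSet.pair_mem_prod.2 ⟨hj, (hPc u).2 ⟨hu, hui⟩⟩)
  obtain ⟨-, -, h10⟩ := hΨ' (s m) (s1 m hm.le) m hm
  rw [hem, fst_pair, snd_pair] at h10
  obtain ⟨u', hu', f1, f2, f3⟩ := h10 ⟨(hle _ _).2 ⟨s1 m hm.le, hp0, hsp m hm.le⟩, bl_iff.2 hup⟩
  refine ⟨u', hu', f1, (mle f2).2.2, ?_⟩
  obtain ⟨-, d2, -⟩ := hden j hj
  have hsρ := s1 ρ le_rfl
  have hwc : app Ψ (ZFSet.pair (s m) m.toZFSet) ∈ D.c :=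
    app_mem hΨf (ZFSet.pair_mem_prod.2 ⟨s1 m hm.le, Ordinal.mem_toZFSet_iff.2 ⟨m, hm, rfl⟩⟩)
  refine d2 _ f3 _ (hcat u' hu' _ hsρ _ hiM) ?_
  have hs' := (hcd u' hu').1
  have a1 := (hPB.2.1 u' i.toZFSet (s ρ) hs' (hcd _ hsρ).1).2
  have a2 := (hPB.2.1 u' i.toZFSet _ hs' (hcd _ hwc).1).2
  have hsm1 : succ m ≤ ρ := Order.succ_le_of_lt hm
  intro k hk
  by_cases hki : k.toZFSet ∈ i.toZFSet
  · rw [(a1 _).1 hki, (a2 _).1 hki]
    exact ee_refl _
  · rw [(a1 _).2 hki, (a2 _).2 hki]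
    have h11 := s5 m hm k hk
    rcases eq_or_lt_of_le hsm1 with h12 | h12
    · rwa [h12] at h11
    · exact ee_trans (s3 ρ le_rfl (succ m) h12 k hk) h11

end CAA
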