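import Pool.Agent.H1.CA.TarP

/-!
# MP_ceca85_lc, module PI: reduction of dense sets for a generic filter -/

set_option linter.unusedVariables false

open Ordinal Order Set
open scoped ZFSet

namespace CAA

open SF

namespace XPI

theorem ee_refl (q : V) : Ee q q := ⟨fun x hx => hx, fun x hx y hy _ => hx⟩

theorem ee_empty (q : V) : Ee q ∅ :=
  ⟨fun x hx => absurd hx (ZFSet.notMem_empty x),
    fun x _ y hy _ => absurd hy (ZFSet.notMem_empty y)⟩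

theorem ee_trans {a b c : V} (h1 : Ee a b) (h2 : Ee b c) : Ee a c :=
  ⟨fun x hx => h1.1 (h2.1 hx), fun x hx y hy hxy => h2.2 x (h1.2 x hx y (h2.1 hy) hxy) y hy hxy⟩

/-- `u` has its domain in `i` -/
def Do (u i : V) : Prop := ∀ z ∈ u, fst z ∈ i

theorem dfb_do {f g : (V → Prop) → (ℕ → V) → V} (hf : Tm ZFm f) (hg : Tm ZFm g) :
    Dfb ZFm (fun M v => Do (f M v) (g M v)) := by
  refine Dfb.at2 (P := fun _ x y => Do x y) ?_ hf hg
  exact (Dfb.ball (R := fun _ v => fst (v 0) ∈ v 2) ktr_zfm (Tm.var 0)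
    (Dfb.mem (Tm.fst (Tm.var 0)) (Tm.var 2))).congr fun M k v hv => Iff.rfl

/-- `u` extends `v` below `i` -/
def Bl (i u v : V) : Prop := ∀ k ∈ i, Ee (app u k) (app v k)

theorem dfb_bl (hPC : T_PC) {f g h : (V → Prop) → (ℕ → V) → V} (hf : Tm ZFm f) (hg : Tm ZFm g)
    (hh : Tm ZFm h) : Dfb ZFm (fun M v => Bl (f M v) (g M v) (h M v)) := by
  refine Dfb.at3 (P := fun _ x y z => Bl x y z) ?_ hf hg hh
  exact (Dfb.ball (R := fun _ v => Ee (app (v 2) (v 0)) (app (v 3) (v 0))) ktr_zfm (Tm.var 0)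
    (Dfb.at2 (P := fun _ x y => Ee x y) hPC.2.1 (Tm.app (Tm.var 2) (Tm.var 0))
      (Tm.app (Tm.var 3) (Tm.var 0)))).congr fun M k v hv => Iff.rfl

theorem bl_iff {i : Ordinal.{0}} {u v : V} :
    Bl i.toZFSet u v ↔ ∀ k < i, Ee (app u k.toZFSet) (app v k.toZFSet) := by
  constructor
  · intro h k hk
    exact h _ (Ordinal.mem_toZFSet_iff.2 ⟨k, hk, rfl⟩)
  · intro h k hk
    obtain ⟨α, hα, rfl⟩ := Ordinal.mem_toZFSet_iff.1 hk
    exact h α hα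

theorem tm_cat (hPC : T_PC) {f g h : (V → Prop) → (ℕ → V) → V} (hf : Tm ZFm f) (hg : Tm ZFm g)
    (hh : Tm ZFm h) : Tm ZFm (fun M v => cat (f M v) (g M v) (h M v)) :=
  Tm.at3 (F := fun _ x y z => cat x y z) hPC.2.2.2.1 hf hg hh

/-- the set of the conditions `v ≤ p0` which reduce the dense sets -/
noncomputable def U (c r p0 J W i : V) : V := c.sep fun v => ZFSet.pair v p0 ∈ r ∧
  ∀ j ∈ J, ∀ u ∈ c, Do u i ∧ Bl i u v → ∃ u' ∈ c, Do u' i ∧ ZFSet.pair u' u ∈ r ∧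
    cat i u' v ∈ app W j

theorem tm_U (hPC : T_PC) : Tm ZFm (fun _ v => U (v 0) (v 1) (v 2) (v 3) (v 4) (v 5)) := by
  refine (Tm.sep (R := fun _ v => ZFSet.pair (v 0) (v 3) ∈ v 2 ∧
    ∀ j ∈ v 4, ∀ u ∈ v 1, Do u (v 6) ∧ Bl (v 6) u (v 0) → ∃ u' ∈ v 1, Do u' (v 6) ∧
      ZFSet.pair u' u ∈ v 2 ∧ cat (v 6) u' (v 0) ∈ app (v 5) j) ?_ (Tm.var 0)).congr
      fun M k v hv => rfl
  refine (Dfb.pairMem (Tm.var 0) (Tm.var 3) (Tm.var 2)).and ?_
  refine (Dfb.ball (R := fun _ v => ∀ u ∈ v 2, Do u (v 7) ∧ Bl (v 7) u (v 1) → ∃ u' ∈ v 2,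
    Do u' (v 7) ∧ ZFSet.pair u' u ∈ v 3 ∧ cat (v 7) u' (v 1) ∈ app (v 6) (v 0)) ktr_zfm
      (Tm.var 4) ?_).congr fun M k v hv => Iff.rfl
  refine (Dfb.ball (R := fun _ v => Do (v 0) (v 8) ∧ Bl (v 8) (v 0) (v 2) → ∃ u' ∈ v 3,
    Do u' (v 8) ∧ ZFSet.pair u' (v 0) ∈ v 4 ∧ cat (v 8) u' (v 2) ∈ app (v 7) (v 1)) ktr_zfm
      (Tm.var 2) ?_).congr fun M k v hv => Iff.rfl
  refine ((dfb_do (Tm.var 0) (Tm.var 8)).and (dfb_bl hPC (Tm.var 8) (Tm.var 0) (Tm.var 2))).imp ?_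
  refine (Dfb.bex (R := fun _ v => Do (v 0) (v 9) ∧ ZFSet.pair (v 0) (v 1) ∈ v 5 ∧
    cat (v 9) (v 0) (v 3) ∈ app (v 8) (v 2)) ktr_zfm (Tm.var 3) ?_).congr fun M k v hv => Iff.rfl
  exact (dfb_do (Tm.var 0) (Tm.var 9)).and ((Dfb.pairMem (Tm.var 0) (Tm.var 1) (Tm.var 5)).and
    (Dfb.mem (tm_cat hPC (Tm.var 9) (Tm.var 0) (Tm.var 3)) (Tm.app (Tm.var 8) (Tm.var 2))))

/-- the conditions which decide the reduction for `j` -/
noncomputable def Z (c r v W i : V) : V := c.sep fun p => ∃ u' ∈ c, Do u' i ∧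
  ZFSet.pair p u' ∈ r ∧ ZFSet.pair p (cat i u' v) ∈ r ∧ cat i u' v ∈ W

theorem tm_Z (hPC : T_PC) : Tm ZFm (fun _ v => Z (v 0) (v 1) (v 2) (v 3) (v 4)) := by
  refine (Tm.sep (R := fun _ v => ∃ u' ∈ v 1, Do u' (v 5) ∧
    ZFSet.pair (v 0) u' ∈ v 2 ∧ ZFSet.pair (v 0) (cat (v 5) u' (v 3)) ∈ v 2 ∧
      cat (v 5) u' (v 3) ∈ v 4) ?_ (Tm.var 0)).congr fun M k v hv => rfl
  refine (Dfb.bex (R := fun _ v => Do (v 0) (v 6) ∧
    ZFSet.pair (v 1) (v 0) ∈ v 3 ∧ ZFSet.pair (v 1) (cat (v 6) (v 0) (v 4)) ∈ v 3 ∧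
      cat (v 6) (v 0) (v 4) ∈ v 5) ktr_zfm (Tm.var 1) ?_).congr fun M k v hv => Iff.rfl
  have hc := tm_cat hPC (f := fun _ v => v 6) (g := fun _ v => v 0) (h := fun _ v => v 4)
    (Tm.var 6) (Tm.var 0) (Tm.var 4)
  exact (dfb_do (Tm.var 0) (Tm.var 6)).and ((Dfb.pairMem (Tm.var 1) (Tm.var 0) (Tm.var 3)).and
    ((Dfb.pairMem (Tm.var 1) hc (Tm.var 3)).and (Dfb.mem hc (Tm.var 5))))

end XPI

open XPI

theorem pf_PI (hPB : T_PB) (hPC : T_PC) (hPF : T_PF) (hPH : T_PH) (hFE : T_FE) : T_PI := by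
  intro D hD G hG i hi p0 hp0 J W hJ hsm hW hden
  have hz : ZFm D.M := hD.grd.zfc.toZFm
  obtain ⟨po, hcM, hrM, -, hcd, hrst, hcat, -, hle, -⟩ := hPF D hD
  have hiM : D.M i.toZFSet :=
    (hD.grd.ord i).2 (hi.trans (hD.grd.κχ.trans hD.grd.χθ))
  have hGc : ∀ p ∈ G, p ∈ D.c := fun p hp => hG.1.sub hp
  have p0M : D.M p0 := (hcd p0 (hGc p0 hp0)).2.1
  have mle : ∀ {p q : V}, ZFSet.pair p q ∈ D.r → p ∈ D.c ∧ q ∈ D.c ∧ D.Le p q :=
    fun {p q} h => (hle p q).1 h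
  -- the set `U`
  have hUM : D.M (U D.c D.r p0 J W i.toZFSet) :=
    (tm_U hPC).1 D.M hz (cons D.c (cons D.r (cons p0 (cons J (cons W fun _ => i.toZFSet))))) (by
      intro n
      match n with
      | 0 => exact hcM
      | 1 => exact hrM
      | 2 => exact p0M
      | 3 => exact hJ
      | 4 => exact hW
      | n + 5 => exact hiM)
  obtain ⟨v, hvG, hvU, hvp⟩ := hFE D.M D.c D.r G _ p0 hz hcM hrM po hG hUM hp0 (by
    intro p hp
    have hp' := mle hp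
    obtain ⟨v, hv, hvp, hvi, hred⟩ := hPH D hD i hi p hp'.1 J W hJ hsm hW (by
      intro j hj
      obtain ⟨a1, a2, a3⟩ := hden j hj
      refine ⟨a1, a2, fun q hq hqp => a3 q hq ?_⟩
      exact (mle (po.trans _ _ _ ((hle q p).2 ⟨hq, hp'.1, hqp⟩) hp)).2.2)
    have hvr : ZFSet.pair v p ∈ D.r := (hle v p).2 ⟨hv, hp'.1, hvp⟩
    refine ⟨v, ?_, hvr⟩
    unfold U
    rw [ZFSet.mem_sep]
    refine ⟨hv, po.trans _ _ _ hvr hp, ?_⟩
    rintro j hj u hu ⟨hu1, hu2⟩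
    obtain ⟨u', hu', b1, b2, b3⟩ := hred j hj u hu hu1 (by
      intro k hk
      rw [← hvi k hk]
      exact bl_iff.1 hu2 k hk)
    exact ⟨u', hu', b1, (hle u' u).2 ⟨hu', hu, b2⟩, b3⟩)
  unfold U at hvU
  rw [ZFSet.mem_sep] at hvU
  obtain ⟨hvc, -, hvr⟩ := hvU
  refine ⟨v, hvG, (mle hvp).2.2, ?_⟩
  intro j hj
  have hWj : D.M (app W j) := by
    have h := (Tm.app (Tm.var 0) (Tm.var 1)).1 D.M hz (cons W fun _ => j) (by
      intro n
      cases n with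
      | zero => exact hW
      | succ n => exact hz.trans _ hJ j hj)
    exact h
  have hZM : D.M (Z D.c D.r v (app W j) i.toZFSet) :=
    (tm_Z hPC).1 D.M hz (cons D.c (cons D.r (cons v (cons (app W j) fun _ => i.toZFSet)))) (by
      intro n
      match n with
      | 0 => exact hcM
      | 1 => exact hrM
      | 2 => exact (hcd v hvc).2.1
      | 3 => exact hWj
      | n + 4 => exact hiM)
  obtain ⟨p, hpG, hpZ, -⟩ := hFE D.M D.c D.r G _ v hz hcM hrM po hG hZM hvG (by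
    intro p hp
    obtain ⟨hpc, -, hpv⟩ := mle hp
    have hps : Svl p := (hcd p hpc).1
    have hu : rst i.toZFSet p ∈ D.c := hrst p hpc _ hiM
    obtain ⟨u', hu', c1, c2, c3⟩ := hvr j hj (rst i.toZFSet p) hu ⟨by
        intro z hz
        unfold rst at hz
        exact (ZFSet.mem_sep.1 hz).2, by
        intro k hk
        rw [((hPB.1 p i.toZFSet hps).2 k).1 hk]
        obtain ⟨α, hα, rfl⟩ := Ordinal.mem_toZFSet_iff.1 hk
        exact hpv α (hα.trans hi)⟩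
    obtain ⟨-, -, c2⟩ := mle c2
    have hs' : Svl u' := (hcd u' hu').1
    have hcc : cat i.toZFSet u' p ∈ D.c := hcat u' hu' p hpc _ hiM
    have hcv : cat i.toZFSet u' v ∈ D.c := hcat u' hu' v hvc _ hiM
    have ap := hPB.2.1 u' i.toZFSet p hs' hps
    have av := hPB.2.1 u' i.toZFSet v hs' (hcd v hvc).1
    refine ⟨cat i.toZFSet u' p, ?_, (hle _ _).2 ⟨hcc, hpc, ?_⟩⟩
    · unfold Z
      rw [ZFSet.mem_sep]
      refine ⟨hcc, u', hu', c1, (hle _ _).2 ⟨hcc, hu', ?_⟩, (hle _ _).2 ⟨hcc, hcv, ?_⟩, c3⟩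
      · intro k hk
        by_cases hki : k.toZFSet ∈ i.toZFSet
        · rw [(ap.2 _).1 hki]
          exact ee_refl _
        · have h0 : app u' k.toZFSet = ∅ := by
            refine hPB.2.2.2 u' _ fun h => hki ?_
            obtain ⟨y, hy⟩ := mem_dm.1 h
            have h3 := c1 _ hy
            rwa [fst_pair] at h3
          rw [h0]
          exact ee_empty _
      · intro k hk
        by_cases hki : k.toZFSet ∈ i.toZFSet
        · rw [(ap.2 _).1 hki, (av.2 _).1 hki]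
          exact ee_refl _
        · rw [(ap.2 _).2 hki, (av.2 _).2 hki]
          exact hpv k hk
    · intro k hk
      by_cases hki : k.toZFSet ∈ i.toZFSet
      · rw [(ap.2 _).1 hki]
        have h4 := c2 k hk
        rwa [((hPB.1 p i.toZFSet hps).2 _).1 hki] at h4
      · rw [(ap.2 _).2 hki]
        exact ee_refl _)
  unfold Z at hpZ
  rw [ZFSet.mem_sep] at hpZ
  obtain ⟨-, u', hu', c1, c2, c3, c4⟩ := hpZ
  exact ⟨u', hG.1.up p hpG _ c2, c1, hG.1.up p hpG _ c3, c4⟩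

end CAA
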