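import Pool.Agent.H94.CA.PI

/-!
# MP_ceca85_lc, module PJ: functions from `L_(γ i)` to `μ i` in the extension are bounded -/

set_option linter.unusedVariables false

open Ordinal Order Set
open scoped ZFSet

namespace CAA

open SF XPI

theorem pf_PJ (hPC : T_PC) (hPF : T_PF) (hPI : T_PI) (hDF : T_DF) (hDS : T_DS) (hGH : T_GH)
    (hFM : T_FM) : T_PJ := by
  intro D hD G hG i hi f hf hff
  have hz : ZFm D.M := hD.grd.zfc.toZFm
  obtain ⟨po, hcM, hrM, -, hcd, -, -, -, hle, -, -, hlow⟩ := hPF D hD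
  have hiθ : ∀ k < D.κ, D.M k.toZFSet := fun k hk =>
    (hD.grd.ord k).2 (hk.trans (hD.grd.κχ.trans hD.grd.χθ))
  have hiM := hiθ i hi
  have hmM : D.M (D.μ i).toZFSet := hiθ _ (hD.sz.μκ i hi)
  have hctb : {x | D.M x}.Countable := hD.grd.ctb
  obtain ⟨hGd, hCM, -, hreg, -⟩ := (hGH D hD).1 i hi
  obtain ⟨-, df2, df3, df4, -, -, df7, -, -, -⟩ := hDF D.M hz _ hCM hGd
  obtain ⟨n, hn, rfl⟩ := hf
  set C : V := LA ∅ (D.γ i) with hC
  set m : V := (D.μ i).toZFSet with hm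
  have mle : ∀ {p q : V}, ZFSet.pair p q ∈ D.r → p ∈ D.c ∧ q ∈ D.c ∧ D.Le p q :=
    fun {p q} h => (hle p q).1 h
  -- the relation: the value of `n` is a function from `C` to `m`
  have hR1 : Dfb ZFm (fun _ w => ZFSet.IsFunc (w 2) (w 3) (val (w 0) (w 1))) :=
    Dfb.isFunc (Tm.var 2) (Tm.var 3) (Tm.val (Tm.var 0) (Tm.var 1))
  obtain ⟨O1, hO1, hO1'⟩ := hDS _ hR1
  -- the relation: the value at `x` is `z`
  have hR2 : Dfb ZFm (fun _ w => app (val (w 0) (w 1)) (w 2) = w 3) :=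
    Dfb.eq (Tm.app (Tm.val (Tm.var 0) (Tm.var 1)) (Tm.var 2)) (Tm.var 3)
  obtain ⟨O2, hO2, hO2'⟩ := hDS _ hR2
  have hv1 : In D.M (cons n (cons C fun _ => m)) := by
    intro j
    match j with
    | 0 => exact hn
    | 1 => exact hCM
    | j + 2 => exact hmM
  obtain ⟨o1, o2, o3⟩ := hO1' D.M D.c D.r _ hz hcM hrM po hv1
  obtain ⟨p0, hp0, hp0O⟩ := (o2 G hG).1 hff
  have hmz : ∀ z ∈ m, D.M z := fun z hz' => hz.trans _ hmM z hz'
  have hCz : ∀ z ∈ C, D.M z := fun z hz' => hz.trans _ hCM z hz'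
  have hv2 : ∀ x, D.M x → ∀ z, D.M z → In D.M (cons n (cons x fun _ => z)) := by
    intro x hx z hz' j
    match j with
    | 0 => exact hn
    | 1 => exact hx
    | j + 2 => exact hz'
  -- the set of the conditions which force that the value at `x` is `z`
  set O : V → V → V := fun x z => O2 D.M (cons D.c (cons D.r (cons n (cons x fun _ => z))))
    with hOdef
  have hOr : ∀ x, D.M x → ∀ z, D.M z → RegO D.c D.r (O x z) := fun x hx z hz' =>
    (hO2' D.M D.c D.r _ hz hcM hrM po (hv2 x hx z hz')).1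
  have hOt : ∀ x, D.M x → ∀ z, D.M z → ∀ G, D.Gn G →
      (app (val G n) x = z ↔ ∃ p ∈ G, p ∈ O x z) := fun x hx z hz' G hG =>
    (hO2' D.M D.c D.r _ hz hcM hrM po (hv2 x hx z hz')).2.1 G hG
  -- the function `O2` of the arguments `c, r, n, x, z`
  have tO : ∀ {a b : (V → Prop) → (ℕ → V) → V} {kc kr kn : ℕ}, Tm ZFm a → Tm ZFm b →
      Tm ZFm (fun M v => O2 M (cons (v kc) (cons (v kr) (cons (v kn)
        (cons (a M v) fun _ => b M v))))) := by
    intro a b kc kr kn ha hb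
    refine (hO2.comp (fun j => match j with
      | 0 => fun _ v => v kc
      | 1 => fun _ v => v kr
      | 2 => fun _ v => v kn
      | 3 => a
      | _ + 4 => b) ?_).congr ?_
    · intro j
      match j with
      | 0 => exact Tm.var kc
      | 1 => exact Tm.var kr
      | 2 => exact Tm.var kn
      | 3 => exact ha
      | j + 4 => exact hb
    · intro M k v hv
      congr 1
      funext j
      match j with
      | 0 => rfl
      | 1 => rfl
      | 2 => rfl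
      | 3 => rfl
      | j + 4 => rfl
  -- the dense sets
  set W : V := resS C fun x => D.c.sep fun p => ∃ z ∈ m, p ∈ O x z with hWdef
  have hWM : D.M W := by
    have t : Tm ZFm (fun M v => resS (v 3) fun x => (v 0).sep fun p => ∃ z ∈ v 4,
        p ∈ O2 M (cons (v 0) (cons (v 1) (cons (v 2) (cons x fun _ => z))))) := by
      refine (Tm.resS (f := fun _ v => v 3) (g := fun M v => (v 1).sep fun p => ∃ z ∈ v 5,
        p ∈ O2 M (cons (v 1) (cons (v 2) (cons (v 3) (cons (v 0) fun _ => z))))) (Tm.var 3)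
        ?_).congr fun M k v hv => rfl
      refine (Tm.sep (R := fun M v => ∃ z ∈ v 6,
        v 0 ∈ O2 M (cons (v 2) (cons (v 3) (cons (v 4) (cons (v 1) fun _ => z))))) ?_
        (Tm.var 1)).congr fun M k v hv => rfl
      exact (Dfb.bex (R := fun M v =>
        v 1 ∈ O2 M (cons (v 3) (cons (v 4) (cons (v 5) (cons (v 2) fun _ => v 0))))) ktr_zfm
        (Tm.var 6) (Dfb.mem (Tm.var 1) (tO (Tm.var 2) (Tm.var 0)))).congr
          fun M k v hv => Iff.rfl
    exact t.1 D.M hz (cons D.c (cons D.r (cons n (cons C fun _ => m)))) (by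
      intro j
      match j with
      | 0 => exact hcM
      | 1 => exact hrM
      | 2 => exact hn
      | 3 => exact hCM
      | j + 4 => exact hmM)
  have hWx : ∀ x ∈ C, ∀ p, p ∈ app W x ↔ p ∈ D.c ∧ ∃ z ∈ m, p ∈ O x z := by
    intro x hx p
    rw [hWdef, app_resS hx, ZFSet.mem_sep]
  obtain ⟨v, hvG, -, hvr⟩ := hPI D hD G hG i hi p0 hp0 C W hCM (df2 C hCM fun x hx => hx) hWM (by
    intro x hx
    refine ⟨fun p hp => ((hWx x hx p).1 hp).1, ?_, ?_⟩
    · intro p hp q hq hqp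
      obtain ⟨hpc, z, hz', hpz⟩ := (hWx x hx p).1 hp
      exact (hWx x hx q).2 ⟨hq, z, hz', (hOr x (hCz x hx) z (hmz z hz')).2.1 p hpz q
        ((hle q p).2 ⟨hq, hpc, hqp⟩)⟩
    · intro p hp hpp
      obtain ⟨G', hG', hpG'⟩ := hFM D.M D.c D.r p hctb po hp
      have hp0G' : p0 ∈ G' := hG'.1.up p hpG' p0 ((hle p p0).2 ⟨hp, hG.1.sub hp0, hpp⟩)
      have hfun : ZFSet.IsFunc C m (val G' n) := (o2 G' hG').2 ⟨p0, hp0G', hp0O⟩
      have hzm : app (val G' n) x ∈ m := app_mem hfun hx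
      obtain ⟨p', hp', hp'O⟩ := (hOt x (hCz x hx) _ (hmz _ hzm) G' hG').1 rfl
      obtain ⟨s, hs, hsp, hsp'⟩ := hG'.1.dir p hpG' p' hp'
      refine ⟨s, (hWx x hx s).2 ⟨hG'.1.sub hs, _, hzm, ?_⟩, (mle hsp).2.2⟩
      exact (hOr x (hCz x hx) _ (hmz _ hzm)).2.1 p' hp'O s hsp')
  have hvc : v ∈ D.c := hG.1.sub hvG
  have hvM : D.M v := (hcd v hvc).2.1
  -- the possible values
  set F : V := (ZFSet.prod (ZFSet.prod C C) m).sep fun w =>
    cat i.toZFSet (snd (fst w)) v ∈ O (fst (fst w)) (snd w) with hFdef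
  have hFM' : D.M F := by
    have t : Tm ZFm (fun M w => (ZFSet.prod (ZFSet.prod (w 3) (w 3)) (w 4)).sep fun y =>
        cat (w 6) (snd (fst y)) (w 5) ∈
          O2 M (cons (w 0) (cons (w 1) (cons (w 2) (cons (fst (fst y)) fun _ => snd y))))) := by
      refine (Tm.sep (f := fun _ w => ZFSet.prod (ZFSet.prod (w 3) (w 3)) (w 4))
        (R := fun M w => cat (w 7) (snd (fst (w 0))) (w 6) ∈
          O2 M (cons (w 1) (cons (w 2) (cons (w 3) (cons (fst (fst (w 0))) fun _ =>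
            snd (w 0)))))) ?_
        (Tm.prod (Tm.prod (Tm.var 3) (Tm.var 3)) (Tm.var 4))).congr fun M k v hv => rfl
      exact Dfb.mem (tm_cat hPC (Tm.var 7) (Tm.snd (Tm.fst (Tm.var 0))) (Tm.var 6))
        (tO (Tm.fst (Tm.fst (Tm.var 0))) (Tm.snd (Tm.var 0)))
    exact t.1 D.M hz (cons D.c (cons D.r (cons n (cons C (cons m
      (cons v fun _ => i.toZFSet)))))) (by
      intro j
      match j with
      | 0 => exact hcM
      | 1 => exact hrM
      | 2 => exact hn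
      | 3 => exact hCM
      | 4 => exact hmM
      | 5 => exact hvM
      | j + 6 => exact hiM)
  have hFp : ∀ x u z, ZFSet.pair (ZFSet.pair x u) z ∈ F ↔ (x ∈ C ∧ u ∈ C) ∧ z ∈ m ∧
      cat i.toZFSet u v ∈ O x z := by
    intro x u z
    rw [hFdef, ZFSet.mem_sep, ZFSet.pair_mem_prod, ZFSet.pair_mem_prod]
    simp only [fst_pair, snd_pair]
    tauto
  have hFs : ∀ w ∈ F, ∃ x u z, w = ZFSet.pair (ZFSet.pair x u) z := by
    intro w hw
    rw [hFdef, ZFSet.mem_sep] at hw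
    obtain ⟨a, ha, z, -, rfl⟩ := ZFSet.mem_prod.1 hw.1
    obtain ⟨x, -, u, -, rfl⟩ := ZFSet.mem_prod.1 ha
    exact ⟨x, u, z, rfl⟩
  have hsv : Svl F := by
    intro a z z' h1 h2
    obtain ⟨x, u, z0, e⟩ := hFs _ h1
    obtain ⟨rfl, rfl⟩ := ZFSet.pair_inj.1 e
    obtain ⟨⟨hx, hu⟩, hzm, hO⟩ := (hFp x u z).1 h1
    obtain ⟨-, hzm', hO'⟩ := (hFp x u z').1 h2
    have hcc := (hOr x (hCz x hx) z (hmz z hzm)).1 hO
    obtain ⟨G', hG', hpG'⟩ := hFM D.M D.c D.r _ hctb po hcc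
    have r1 := (hOt x (hCz x hx) z (hmz z hzm) G' hG').2 ⟨_, hpG', hO⟩
    have r2 := (hOt x (hCz x hx) z' (hmz z' hzm') G' hG').2 ⟨_, hpG', hO'⟩
    rw [← r1, ← r2]
  have hdM : D.M (dm F) := by
    exact (Tm.dm (Tm.var 0)).1 D.M hz (fun _ => F) fun _ => hFM'
  have hrM' : D.M (rg F) := by
    exact (Tm.rg (Tm.var 0)).1 D.M hz (fun _ => F) fun _ => hFM'
  have hsC : Sm D.M C C := df2 C hCM fun x hx => hx
  have hsF : Sm D.M C (rg F) := by
    refine df7 (dm F) F (df3 (dm F) (ZFSet.prod C C) hdM (df4 C C hsC hsC) ?_) hFM' hsv rfl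
    intro a ha
    obtain ⟨z, hz'⟩ := mem_dm.1 ha
    obtain ⟨x, u, z0, e⟩ := hFs _ hz'
    obtain ⟨rfl, rfl⟩ := ZFSet.pair_inj.1 e
    exact ZFSet.pair_mem_prod.2 ((hFp x u z).1 hz').1
  obtain ⟨η, hη, hsub⟩ := hreg (rg F) hrM' hsF (by
    intro z hz'
    obtain ⟨a, ha⟩ := mem_rg.1 hz'
    obtain ⟨x, u, z0, e⟩ := hFs _ ha
    obtain ⟨rfl, rfl⟩ := ZFSet.pair_inj.1 e
    exact ((hFp x u z).1 ha).2.1)
  refine ⟨η, hη, ?_⟩
  intro x hx
  obtain ⟨u', hu', hd, hcG, hcW⟩ := hvr x hx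
  obtain ⟨-, z, hzm, hzO⟩ := (hWx x hx _).1 hcW
  have r := (hOt x (hCz x hx) z (hmz z hzm) G hG).2 ⟨_, hcG, hzO⟩
  rw [r]
  refine hsub (mem_rg.2 ⟨ZFSet.pair x u', (hFp x u' z).2 ⟨⟨hx, ?_⟩, hzm, hzO⟩⟩)
  exact hlow i hi u' (hG.1.sub hu') hd

end CAA
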